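import Pool.Agent.K.MP_8acafb_co.C4

namespace Pool.Agent.Results.MP_8acafb_co.Asymptotic

open Filter Topology Pool.Agent.P.MP_8acafb_co

/-- The growth rate `μ t` of `t`-stack sortable permutations satisfies `μ t / t ^ 2 → 1 / e`. -/
theorem result : ∃ μ : ℕ → ℝ,
    (∀ t : ℕ, Tendsto (fun n : ℕ => (W t n : ℝ) ^ (1 / (n : ℝ))) atTop (𝓝 (μ t))) ∧
      Tendsto (fun t : ℕ => μ t / (t : ℝ) ^ 2) atTop (𝓝 (1 / Real.exp 1)) := by
  simpa only [one_div, Real.exp_neg] using asymptotic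

end Pool.Agent.Results.MP_8acafb_co.Asymptotic
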