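import Pool.Agent.K.MP_8acafb_co.C7

namespace Pool.Agent.Results.MP_8acafb_co.EffectiveRate

open Filter Topology Pool.Agent.P.MP_8acafb_co

/-- An effective rate of convergence to the growth rate of `t`-stack sortable permutations. -/
theorem result (t : ℕ) (ht : 1 ≤ t) : ∃ μ : ℝ,
    Tendsto (fun n : ℕ => (W t n : ℝ) ^ (1 / (n : ℝ))) atTop (𝓝 μ) ∧
      ∀ P n : ℕ, 1 ≤ P → P ^ (6 * P) ≤ n →
        μ ≤ (W t n : ℝ) ^ (1 / (n : ℝ)) * Real.exp (70 * (t : ℝ) ^ 4 / P) := by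
  obtain ⟨μ, h1, h2⟩ := HW.main ht
  refine ⟨μ, h1, fun P n hP hn => ?_⟩
  have hn0 : n ≠ 0 := ((pow_pos hP _).trans_le hn).ne'
  refine le_of_pow_le_pow_left₀ hn0 (by positivity) ((h2 P n hP hn).trans (le_of_eq ?_))
  rw [mul_pow, one_div, Real.rpow_inv_natCast_pow (Nat.cast_nonneg _) hn0, ← Real.exp_nat_mul]
  congr 2
  ring

end Pool.Agent.Results.MP_8acafb_co.EffectiveRate
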