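import Pool.Agent.K.MP_8acafb_co.C3

namespace Pool.Agent.Results.MP_8acafb_co.Lower

open Filter Topology Pool.Agent.P.MP_8acafb_co

/-- The growth rate of `t`-stack sortable permutations is at least `t ((t-1)!) ^ (1/t)`. -/
theorem result (t : ℕ) (ht : 1 ≤ t) : ∃ μ : ℝ,
    Tendsto (fun n : ℕ => (W t n : ℝ) ^ (1 / (n : ℝ))) atTop (𝓝 μ) ∧
      (t : ℝ) * (((t - 1).factorial : ℕ) : ℝ) ^ (1 / (t : ℝ)) ≤ μ := by
  obtain ⟨m, rfl⟩ : ∃ m, t = m + 1 := ⟨t - 1, by omega⟩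
  obtain ⟨μ, h1, h2, h3⟩ := exists_mu (m + 1)
  exact ⟨μ, h2, mu_lower m μ h1 h3⟩

end Pool.Agent.Results.MP_8acafb_co.Lower
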