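import Pool.Agent.K.MP_8acafb_co.C11

namespace Pool.Agent.Results.MP_8acafb_co.Three

open Filter Topology Pool.Agent.P.MP_8acafb_co

/-- The growth rate of 3-stack sortable permutations lies between 9.6991 and 9.6998. -/
theorem result : ∃ μ : ℝ,
    Tendsto (fun n : ℕ => (W 3 n : ℝ) ^ (1 / (n : ℝ))) atTop (𝓝 μ) ∧
      (96991 : ℝ) / 10000 < μ ∧ μ < (96998 : ℝ) / 10000 := by
  obtain ⟨μ, h1, h2, h3⟩ := T3.main
  exact ⟨μ, h1, by linarith, by linarith⟩

end Pool.Agent.Results.MP_8acafb_co.Three
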